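import Mathlib
import Pool.Agent.H17.MetaFib

set_option autoImplicit false

namespace Pool.Agent.Results.MP_f90694_nt.TwoRegular

theorem result (h : ℤ → ℤ) (h0 : ∀ n ≤ 0, h n = 1) (h1 : h 1 = 1)
    (h2 : ∀ n, 1 < n → h n = h (n - h (n - 1)) + h (n - 2)) (i : ℤ) (hi : i = 0 ∨ i = 1) :
    (Submodule.span ℤ {v : ℕ → ℤ | ∃ e j, j < 2 ^ e ∧
      v = fun n => (Nat.nth (fun m : ℕ => h m % 2 = i) (2 ^ e * n + j) : ℤ)}).FG :=
  Pool.Agent.H17.MFib.final h h0 h1 h2 i hi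

end Pool.Agent.Results.MP_f90694_nt.TwoRegular
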